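import Mathlib
import Pool.Agent.R446.IPFinal

set_option autoImplicit false

/-!
# An IP set that is not expanding: a set `A` of positive upper Banach density such that
`A - A + FS(x_n)` contains no Bohr set
-/

namespace Pool.Agent.Results.MP_23b914_co.IPNotExpanding

/-- Upper Banach density: the upper limit (in fact a limit) of
`sup_M |A ∩ {M + 1, ..., M + N}| / N` as `N` tends to infinity. -/
noncomputable def upperBanachDensity (A : Set ℤ) : ℝ :=
  Filter.limsup (fun N : ℕ => ⨆ M : ℤ, ((A ∩ Set.Ioc M (M + (N : ℤ))).ncard : ℝ) / (N : ℝ))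
    Filter.atTop

/-- The Bohr set `{x : |exp(2 π i α_j x) - 1| < η for all j}`. -/
def bohrSet {k : ℕ} (α : Fin k → ℝ) (η : ℝ) : Set ℤ :=
  {x | ∀ j, ‖Complex.exp (2 * Real.pi * Complex.I * α j * (x : ℂ)) - 1‖ < η}

/-- `S` is expanding: for every `A` with positive upper Banach density, the set `A - A + S`
contains a Bohr set. -/
def IsExpanding (S : Set ℤ) : Prop :=
  ∀ A : Set ℤ, 0 < upperBanachDensity A →
    ∃ (k : ℕ) (α : Fin k → ℝ) (η : ℝ), 0 < η ∧
      bohrSet α η ⊆ {x | ∃ a ∈ A, ∃ a' ∈ A, ∃ s ∈ S, x = a - a' + s}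

/-- The set of all sums of finitely many (at least one) terms of the sequence `x` with distinct
indices. -/
def FS (x : ℕ → ℕ) : Set ℤ :=
  {y | ∃ F : Finset ℕ, F.Nonempty ∧ y = ∑ n ∈ F, (x n : ℤ)}

/-- **Theorem.** Not every IP set is expanding; explicitly, the IP set generated by
`x_n = 2^(4^(n+2))`, `n ≥ 0`, is not expanding. -/
theorem result :
    (¬ ∀ x : ℕ → ℕ, (∀ n, 0 < x n) → IsExpanding (FS x)) ∧
      ¬ IsExpanding (FS (fun n => 2 ^ (4 ^ (n + 2)))) := by
  have main : ¬ IsExpanding (FS (fun n => 2 ^ (4 ^ (n + 2)))) := by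
    intro hexp
    obtain ⟨p, hp⟩ := Pool.Agent.R446.exists_parity
    set A : Set ℤ := Pool.Agent.R446.AA Pool.Agent.R446.KK Pool.Agent.R446.thr p with hA
    have hone : ∀ (N : ℕ) (M : ℤ),
        ((A ∩ Set.Ioc M (M + (N : ℤ))).ncard : ℝ) / (N : ℝ) ≤ 1 := by
      intro N M
      have h1 : (A ∩ Set.Ioc M (M + (N : ℤ))).ncard ≤ N := by
        refine le_trans (Set.ncard_le_ncard Set.inter_subset_right (Set.finite_Ioc _ _)) ?_
        rw [← Finset.coe_Ioc, Set.ncard_coe_finset, Int.card_Ioc]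
        omega
      exact div_le_one_of_le₀ (by exact_mod_cast h1) (Nat.cast_nonneg _)
    have hdens : 0 < upperBanachDensity A := by
      refine lt_of_lt_of_le (by norm_num : (0 : ℝ) < 1 / 4) ?_
      apply Filter.le_limsup_of_frequently_le
      · rw [Filter.frequently_atTop]
        intro N₀
        obtain ⟨I, hI1, hI2⟩ := hp (N₀ + 1)
        have hL : N₀ ≤ Pool.Agent.R446.LL (Pool.Agent.R446.KK I) := by
          have h1 := Pool.Agent.R446.KK_ge I
          obtain ⟨J, hJ⟩ : ∃ J, Pool.Agent.R446.KK I = J + 1 :=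
            ⟨Pool.Agent.R446.KK I - 1, by omega⟩
          rw [hJ]
          have h2 : J < 2 ^ (4 ^ (J + 2)) := by
            have h3 : J < 4 ^ J := Nat.lt_pow_self (by norm_num)
            have h4 : (4 : ℕ) ^ J ≤ 4 ^ (J + 2) := Nat.pow_le_pow_right (by norm_num) (by omega)
            have h5 : 4 ^ (J + 2) < 2 ^ (4 ^ (J + 2)) := Nat.lt_pow_self (by norm_num)
            omega
          show N₀ ≤ Pool.Agent.R446.MM J
          rw [Pool.Agent.R446.MM_eq]
          omega
        refine ⟨Pool.Agent.R446.LL (Pool.Agent.R446.KK I), hL, ?_⟩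
        have hpos : (0 : ℝ) < (Pool.Agent.R446.LL (Pool.Agent.R446.KK I) : ℕ) := by
          exact_mod_cast Pool.Agent.R446.LL_pos _
        refine le_trans ?_ (le_ciSup ⟨1, ?_⟩ (-1 : ℤ))
        · rw [le_div_iff₀ hpos]
          linarith
        · rintro _ ⟨M, rfl⟩
          exact hone _ M
      · refine ⟨1, ?_⟩
        rw [Filter.eventually_map]
        exact Filter.Eventually.of_forall (fun N => ciSup_le (fun M => hone N M))
    obtain ⟨k, α, η, hη, hsub⟩ := hexp A hdens
    obtain ⟨i, c, hc, hout, hfew, hbohr⟩ := Pool.Agent.R446.bohr_meets k α η hη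
    have hmem : (∑ j ∈ Pool.Agent.R446.blk Pool.Agent.R446.KK i,
        c j * ((Pool.Agent.R446.MM j : ℤ) / 2)) ∈ bohrSet α η := fun l => hbohr l
    obtain ⟨a, ha, a', ha', s, ⟨F, _, hs⟩, heq⟩ := hsub hmem
    refine Pool.Agent.R446.AA_avoid Pool.Agent.R446.KK Pool.Agent.R446.thr
      Pool.Agent.R446.KK_mono Pool.Agent.R446.thr_pos p a' a ha' ha i c hc hout hfew F ?_
    have hs' : s = ∑ f ∈ F, (Pool.Agent.R446.MM f : ℤ) := by
      rw [hs]
      apply Finset.sum_congr rfl
      intro f _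
      rw [Pool.Agent.R446.MM_eq]
    rw [← hs']
    linarith
  refine ⟨fun h => main (h _ (fun n => by positivity)), main⟩

end Pool.Agent.Results.MP_23b914_co.IPNotExpanding
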